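import Pool.Agent.R237.MS.Mat

/-!
# Backward local propagation for matrix-valued weighted shifts

Let `W` be a cubically hyponormal matrix-valued weighted shift with positive invertible weights
`A 0, A 1, …`. If `A k x = A (k + 1) x` for some `k ≥ 1`, then `A n x = A 1 x` for every `n ≥ 1`.
This is the positive answer to Q1. In fact quadratic hyponormality is enough, and the proof gives
forward and backward propagation at once.

Idea of the proof. The set of all `x` with `A k x = A (k + 1) x` is invariant under `A k`, so one may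
assume `A k x = A (k + 1) x = a x`. Write `B = A (k - 1)`, `C = A (k - 2)`, `E = A (k + 2)`. Test the
hyponormality of `W + s W ^ 2` on the vector with entries `s B⁻¹ (a² x)`, `-x`, `(s a)⁻¹ x`, `-x`,
`s E x` at the places `k - 1, …, k + 3`. The terms of order at most `s` cancel, and the terms of
order `s ^ 2` give `‖E² x - a² x‖² + ‖C (B x - B⁻¹ (a² x))‖² ≤ 0`.
-/

set_option autoImplicit false

open scoped InnerProductSpace ComplexOrder

namespace Pool.Agent.Results.MP_c6f870_an.BackwardPropagation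

/-- The space `ℂ^p` with its usual inner product. -/
def Cp (p : ℕ) : Type := EuclideanSpace ℂ (Fin p)

noncomputable instance instCpGroup (p : ℕ) : NormedAddCommGroup (Cp p) :=
  PiLp.normedAddCommGroup 2 fun _ : Fin p => ℂ

noncomputable instance instCpInner (p : ℕ) : InnerProductSpace ℂ (Cp p) :=
  PiLp.innerProductSpace fun _ : Fin p => ℂ

/-- The Hilbert space `ℓ²(ℂ^p)`. -/
def ELL (p : ℕ) : Type := lp (fun _ : ℕ => Cp p) 2

noncomputable instance instELLGroup (p : ℕ) : NormedAddCommGroup (ELL p) :=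
  lp.normedAddCommGroup

noncomputable instance instELLInner (p : ℕ) : InnerProductSpace ℂ (ELL p) :=
  lp.instInnerProductSpace

theorem completeSpace_lp (p : ℕ) : CompleteSpace (lp (fun _ : ℕ => EuclideanSpace ℂ (Fin p)) 2) :=
  inferInstance

instance instELLComplete (p : ℕ) : CompleteSpace (ELL p) := completeSpace_lp p

/-- The `n`-th entry of an element of `ℓ²(ℂ^p)`. -/
def entry {p : ℕ} (h : ELL p) (n : ℕ) : Cp p :=
  Subtype.val (p := fun f => f ∈ lp (fun _ : ℕ => Cp p) 2) h n

/-- The action of a matrix on `ℂ^p`. -/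
noncomputable def act {p : ℕ} (M : Matrix (Fin p) (Fin p) ℂ) (x : Cp p) : Cp p :=
  WithLp.toLp 2 (M.mulVec (WithLp.ofLp x))

/-- `W` is the matrix-valued weighted shift with weights `A n`:
`W (x₀, x₁, …) = (0, A₀ x₀, A₁ x₁, …)`. -/
def IsWeightedShift {p : ℕ} (A : ℕ → Matrix (Fin p) (Fin p) ℂ) (W : ELL p →L[ℂ] ELL p) : Prop :=
  ∀ h : ELL p, entry (W h) 0 = 0 ∧ ∀ n : ℕ, entry (W h) (n + 1) = act (A n) (entry h n)

/-- `R` is the adjoint of `S`. -/
def IsAdjoint {H : Type} [NormedAddCommGroup H] [InnerProductSpace ℂ H] (S R : H →L[ℂ] H) : Prop :=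
  ∀ x y, ⟪S x, y⟫_ℂ = ⟪x, R y⟫_ℂ

/-- `S` is hyponormal: `S* S - S S* ≥ 0`, where `S* = R` is the adjoint. -/
def Hyponormal {H : Type} [NormedAddCommGroup H] [InnerProductSpace ℂ H] (S : H →L[ℂ] H) : Prop :=
  ∀ R : H →L[ℂ] H, IsAdjoint S R → ∀ x, 0 ≤ (⟪x, R (S x) - S (R x)⟫_ℂ).re

/-- `P = S + l S ^ 2` is hyponormal for all `l`. -/
def QuadraticallyHyponormal {H : Type} [NormedAddCommGroup H] [InnerProductSpace ℂ H]
    (S : H →L[ℂ] H) : Prop :=
  ∀ (l : ℂ) (P : H →L[ℂ] H), (∀ x, P x = S x + l • S (S x)) → Hyponormal P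

/-- `P = S + l S ^ 2 + m S ^ 3` is hyponormal for all `l` and `m`. -/
def CubicallyHyponormal {H : Type} [NormedAddCommGroup H] [InnerProductSpace ℂ H]
    (S : H →L[ℂ] H) : Prop :=
  ∀ (l m : ℂ) (P : H →L[ℂ] H), (∀ x, P x = S x + l • S (S x) + m • S (S (S x))) → Hyponormal P

/-- For bounded weights the weighted shift exists, so the statement below is not empty. -/
theorem exists_weightedShift {p : ℕ} (A : ℕ → Matrix (Fin p) (Fin p) ℂ) (C : ℝ)
    (hC : ∀ n x, ‖act (A n) x‖ ≤ C * ‖x‖) : ∃ W : ELL p →L[ℂ] ELL p, IsWeightedShift A W :=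
  Pool.Agent.R237.MS.Mat.exists_weightedShift A C hC

theorem quadratic_norm {H : Type} [NormedAddCommGroup H] [InnerProductSpace ℂ H] [CompleteSpace H]
    (W : H →L[ℂ] H) (hq : QuadraticallyHyponormal W) (l : ℂ) (x : H) :
    ‖ContinuousLinearMap.adjoint (W + l • W ^ 2) x‖ ≤ ‖(W + l • W ^ 2) x‖ := by
  refine Pool.Agent.R237.MS.Mat.norm_of_inner _ x ?_
  exact hq l (W + l • W ^ 2) (fun y => by rw [add_apply, smul_apply, sq]; rfl) _
    (fun y z => (ContinuousLinearMap.adjoint_inner_right _ _ _).symm) x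

/-- **Positive answer to Q1**, together with the stronger statement for quadratically hyponormal
shifts. -/
theorem result {p : ℕ} (A : ℕ → Matrix (Fin p) (Fin p) ℂ) (hA : ∀ n, (A n).PosDef)
    (W : ELL p →L[ℂ] ELL p) (hW : IsWeightedShift A W) (x : Cp p) (k : ℕ) (hk : 1 ≤ k)
    (hx : act (A k) x = act (A (k + 1)) x) :
    (CubicallyHyponormal W → ∀ n : ℕ, 1 ≤ n → act (A n) x = act (A 1) x) ∧
    (QuadraticallyHyponormal W → ∀ n : ℕ, 1 ≤ n → act (A n) x = act (A 1) x) := by
  have h1 : QuadraticallyHyponormal W → ∀ n : ℕ, 1 ≤ n → act (A n) x = act (A 1) x := fun hq =>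
    Pool.Agent.R237.MS.Mat.norm_propagation A hA W hW (quadratic_norm W hq) x k hk hx
  refine ⟨fun hc => h1 fun l P hP => hc l 0 P fun y => ?_, h1⟩
  rw [hP, zero_smul, add_zero]

end Pool.Agent.Results.MP_c6f870_an.BackwardPropagation
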